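import Mathlib

set_option autoImplicit false

namespace W71

open Classical in
/-- The sum of `1 / p` over the primes `p` with `x ≤ p < y` such that `p` does not divide `d` and `d` is
a square modulo `4 p`; for a fundamental discriminant `d` these are the primes which split in
`ℚ(√d)`. -/
noncomputable def splitSum (d : ℤ) (x y : ℝ) : ℝ :=
  ∑ p ∈ (Finset.range ⌈y⌉₊).filter (fun p : ℕ => p.Prime ∧ x ≤ (p : ℝ) ∧ (p : ℝ) < y ∧
    ¬ ((p : ℤ) ∣ d) ∧ ∃ t : ℤ, (4 * (p : ℤ)) ∣ t ^ 2 - d), 1 / (p : ℝ)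

end W71
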