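import Pool.Agent.W_aaa0df_v.DF
import Pool.Agent.W_aaa0df_h71.Ups2

/-!
# Few exceptions, with the sum of `1 / p` over the split primes: final form
-/

set_option autoImplicit false

noncomputable section

open Finset MPaaa0df BG

namespace W71

theorem few_quarter (ρ : ℝ → ℝ) (hρ : IsDickman ρ) (k : ℕ) (hk : 1 ≤ k) (θ : ℝ)
    (hθ : 0 < θ) (hθ4 : θ ≤ 1 / 4) (h : 1 / (2 * (k : ℝ) + 2) < ρ (1 / (2 * θ))) :
    ∃ c σ X₀ : ℝ, 0 < c ∧ 0 < σ ∧ ∀ X : ℝ, X₀ ≤ X → ∀ F : Finset ℤ,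
      (∀ d ∈ F, Twist.Fund d ∧ |(d : ℝ)| ≤ X ∧ splitSum d (X ^ c) (X ^ θ) < σ) →
      F.card ≤ 2 * k := by
  obtain ⟨θ', hθ'1, hθ'2, hθ'3⟩ : ∃ θ' : ℝ, θ / 2 < θ' ∧ θ' < θ ∧
      1 / (2 * (k : ℝ) + 2) < ρ (1 / (2 * θ')) := by
    have hc : ContinuousAt (fun t : ℝ => ρ (1 / (2 * t))) θ := by
      refine ContinuousAt.comp (g := ρ) hρ.1.continuousAt ?_
      refine ContinuousAt.div continuousAt_const (by fun_prop) ?_
      positivity
    have h1 : ∀ᶠ t in nhds θ, 1 / (2 * (k : ℝ) + 2) < ρ (1 / (2 * t)) :=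
      hc.eventually (lt_mem_nhds h)
    have h2 : ∀ᶠ t in nhds θ, θ / 2 < t := lt_mem_nhds (by linarith)
    have h3 : ∀ᶠ t in nhdsWithin θ (Set.Iio θ), t < θ := self_mem_nhdsWithin
    obtain ⟨t, ⟨ht1, ht2⟩, ht3⟩ :=
      (((h1.and h2).filter_mono nhdsWithin_le_nhds).and h3).exists
    exact ⟨t, ht2, ht3, ht1⟩
  have hθ'0 : 0 < θ' := by linarith
  set R : ℝ := ρ (1 / (2 * θ')) with hR
  set ε : ℝ := (R - 1 / (2 * (k : ℝ) + 2)) / 4 with hε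
  have hε0 : 0 < ε := by rw [hε]; linarith
  obtain ⟨C, hC0, hC⟩ := dickman_uniform ρ hρ (⌈1 / (2 * θ')⌉₊ + 1) (by omega) ε hε0
  refine few_smooth k hk θ θ' (1 / (2 * (k : ℝ) + 2) + 2 * ε) hθ'0 hθ'2 hθ4
    (by linarith) ⟨max ((2 : ℝ) ^ (1 / (2 * θ'))) (C / ε), fun N hN => ?_⟩
  have hN1 : (2 : ℝ) ^ (1 / (2 * θ')) ≤ N := (le_max_left _ _).trans hN
  have hN2 : C / ε ≤ N := (le_max_right _ _).trans hN
  have h2 : (1 : ℝ) < (2 : ℝ) ^ (1 / (2 * θ')) :=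
    Real.one_lt_rpow (by norm_num) (by positivity)
  have hN0 : (1 : ℝ) < N := h2.trans_le hN1
  have hlog : 0 < Real.log N := Real.log_pos hN0
  have hy : (2 : ℝ) ≤ (N : ℝ) ^ (2 * θ') := by
    have h3 := Real.rpow_le_rpow (by positivity) hN1 (by positivity : 0 ≤ 2 * θ')
    rw [← Real.rpow_mul (by norm_num)] at h3
    have h4 : 1 / (2 * θ') * (2 * θ') = 1 := by field_simp
    rw [h4, Real.rpow_one] at h3
    exact h3
  have hly : Real.log ((N : ℝ) ^ (2 * θ')) = 2 * θ' * Real.log N :=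
    Real.log_rpow (by linarith) _
  have hK : Real.log N ≤ ((⌈1 / (2 * θ')⌉₊ + 1 : ℕ) : ℝ) * Real.log ((N : ℝ) ^ (2 * θ')) := by
    rw [hly, ← mul_assoc]
    have h5 : (1 : ℝ) / (2 * θ') ≤ ((⌈1 / (2 * θ')⌉₊ + 1 : ℕ) : ℝ) := by
      push_cast
      have h6 := Nat.le_ceil (1 / (2 * θ'))
      linarith
    have h7 : (1 : ℝ) ≤ ((⌈1 / (2 * θ')⌉₊ + 1 : ℕ) : ℝ) * (2 * θ') := by
      have h8 := mul_le_mul_of_nonneg_right h5 (by positivity : 0 ≤ 2 * θ')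
      have h9 : 1 / (2 * θ') * (2 * θ') = 1 := by field_simp
      rw [h9] at h8
      exact h8
    have h10 := mul_le_mul_of_nonneg_right h7 hlog.le
    linarith
  have hu : Real.log N / Real.log ((N : ℝ) ^ (2 * θ')) = 1 / (2 * θ') := by
    rw [hly]
    field_simp
  have h11 := hC N ((N : ℝ) ^ (2 * θ')) hN0.le hy hK
  rw [hu] at h11
  have h12 := (abs_le.1 h11).1
  have h13 : C ≤ ε * N := by
    rw [div_le_iff₀ hε0] at hN2
    linarith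
  have h14 : R = 1 / (2 * (k : ℝ) + 2) + 4 * ε := by rw [hε]; ring
  rw [← hR] at h12
  have h15 : R * N = (1 / (2 * (k : ℝ) + 2)) * N + 4 * (ε * N) := by
    rw [h14]; ring
  have h16 : (1 / (2 * (k : ℝ) + 2) + 2 * ε) * N =
      (1 / (2 * (k : ℝ) + 2)) * N + 2 * (ε * N) := by ring
  rw [h16]
  linarith

theorem splitSum_mono (d : ℤ) (x : ℝ) {y y' : ℝ} (h : y ≤ y') :
    splitSum d x y ≤ splitSum d x y' := by
  classical
  unfold splitSum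
  refine Finset.sum_le_sum_of_subset_of_nonneg ?_ fun p _ _ => by positivity
  intro p hp
  rw [mem_filter, mem_range, Nat.lt_ceil] at hp ⊢
  exact ⟨hp.1.trans_le h, hp.2.1, hp.2.2.1, hp.2.2.2.1.trans_le h, hp.2.2.2.2⟩

theorem dickman_two (ρ : ℝ → ℝ) (hρ : IsDickman ρ) : 1 / 4 < ρ 2 := by
  have h1 := hρ.2.2 2 (by norm_num)
  have h2 : ∫ t in (1 : ℝ)..2, ρ (t - 1) / t = ∫ t in (1 : ℝ)..2, 1 / t := by
    refine intervalIntegral.integral_congr fun t ht => ?_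
    rw [Set.uIcc_of_le (by norm_num)] at ht
    show ρ (t - 1) / t = 1 / t
    rw [hρ.2.1 (t - 1) (by linarith [ht.2])]
  rw [h2, integral_one_div_of_pos (by norm_num) (by norm_num)] at h1
  have h3 := Real.log_two_lt_d9
  rw [div_one] at h1
  rw [h1]
  norm_num
  linarith

/-- The final form. -/
theorem few_dickman (ρ : ℝ → ℝ) (hρ : IsDickman ρ) (k : ℕ) (hk : 1 ≤ k) (θ : ℝ)
    (hθ : 0 < θ) (h : 1 / (2 * (k : ℝ) + 2) < ρ (1 / (2 * θ))) :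
    ∃ c σ X₀ : ℝ, 0 < c ∧ 0 < σ ∧ ∀ X : ℝ, X₀ ≤ X → ∀ F : Finset ℤ,
      (∀ d ∈ F, Twist.Fund d ∧ |(d : ℝ)| ≤ X ∧ splitSum d (X ^ c) (X ^ θ) < σ) →
      F.card ≤ 2 * k := by
  rcases le_or_gt θ (1 / 4) with h4 | h4
  · exact few_quarter ρ hρ k hk θ hθ h4 h
  · have h5 : 1 / (2 * (k : ℝ) + 2) < ρ (1 / (2 * (1 / 4 : ℝ))) := by
      have h6 : (1 : ℝ) / (2 * (1 / 4)) = 2 := by norm_num
      rw [h6]
      refine lt_of_le_of_lt ?_ (dickman_two ρ hρ)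
      have hk1 : (1 : ℝ) ≤ k := by exact_mod_cast hk
      exact one_div_le_one_div_of_le (by norm_num) (by linarith)
    obtain ⟨c, σ, X₀, hc, hσ, hm⟩ := few_quarter ρ hρ k hk (1 / 4) (by norm_num) le_rfl h5
    refine ⟨c, σ, max X₀ 1, hc, hσ, fun X hX F hF => ?_⟩
    have hX1 : 1 ≤ X := (le_max_right _ _).trans hX
    refine hm X ((le_max_left _ _).trans hX) F fun d hd => ?_
    obtain ⟨a1, a2, a3⟩ := hF d hd
    exact ⟨a1, a2, (splitSum_mono d _ (Real.rpow_le_rpow_of_exponent_le hX1 h4.le)).trans_lt a3⟩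

theorem splitSum_le_count (d : ℤ) (x y : ℝ) (hx : 0 < x) :
    splitSum d x y ≤ (splitCount d y : ℝ) * (1 / x) := by
  classical
  unfold splitSum
  refine (Finset.sum_le_sum (g := fun _ => 1 / x) fun p hp => ?_).trans ?_
  · exact one_div_le_one_div_of_le hx (mem_filter.1 hp).2.2.1
  · rw [sum_const, nsmul_eq_mul]
    apply mul_le_mul_of_nonneg_right _ (by positivity)
    unfold splitCount
    rw [Nat.cast_le, ← Set.ncard_coe_finset]
    refine Set.ncard_le_ncard ?_ ?_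
    · intro p hp
      rw [Finset.mem_coe, mem_filter] at hp
      exact ⟨hp.2.1, hp.2.2.2.1, hp.2.2.2.2.1, hp.2.2.2.2.2⟩
    · refine (Finset.finite_toSet (range ⌈y⌉₊)).subset ?_
      intro p hp
      rw [Finset.mem_coe, mem_range, Nat.lt_ceil]
      exact hp.2.1

/-- The earlier form follows: few split primes make the sum small. -/
theorem few_count (k : ℕ) (θ : ℝ)
    (h : ∃ c σ X₀ : ℝ, 0 < c ∧ 0 < σ ∧ ∀ X : ℝ, X₀ ≤ X → ∀ F : Finset ℤ,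
      (∀ d ∈ F, Twist.Fund d ∧ |(d : ℝ)| ≤ X ∧ splitSum d (X ^ c) (X ^ θ) < σ) →
      F.card ≤ 2 * k) :
    ∃ c X₀ : ℝ, 0 < c ∧ ∀ X : ℝ, X₀ ≤ X → ∀ F : Finset ℤ,
      (∀ d ∈ F, Twist.Fund d ∧ |(d : ℝ)| ≤ X ∧ (splitCount d (X ^ θ) : ℝ) < X ^ c) →
      F.card ≤ 2 * k := by
  obtain ⟨c, σ, X₀, hc, hσ, hm⟩ := h
  obtain ⟨X₁, hX₁⟩ := Filter.eventually_atTop.1
    ((tendsto_rpow_atTop (half_pos hc)).eventually_ge_atTop (1 / σ))
  refine ⟨c / 2, max X₀ (max X₁ 1), half_pos hc, fun X hX F hF => ?_⟩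
  have h1 : 1 / σ ≤ X ^ (c / 2) :=
    hX₁ X ((le_max_left _ _).trans ((le_max_right _ _).trans hX))
  have hX1 : 1 ≤ X := (le_max_right _ _).trans ((le_max_right _ _).trans hX)
  have hX0 : 0 < X := by linarith
  refine hm X ((le_max_left _ _).trans hX) F fun d hd => ?_
  obtain ⟨a1, a2, a3⟩ := hF d hd
  refine ⟨a1, a2, ?_⟩
  have hc0 : 0 < X ^ c := by positivity
  have h2 : X ^ (c / 2) * X ^ (c / 2) = X ^ c := by
    rw [← Real.rpow_add hX0]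
    congr 1
    ring
  have hh : 0 < X ^ (c / 2) := by positivity
  calc splitSum d (X ^ c) (X ^ θ) ≤ (splitCount d (X ^ θ) : ℝ) * (1 / X ^ c) :=
        splitSum_le_count d _ _ hc0
    _ < X ^ (c / 2) * (1 / X ^ c) := mul_lt_mul_of_pos_right a3 (by positivity)
    _ = 1 / X ^ (c / 2) := by rw [← h2]; field_simp
    _ ≤ σ := by
        rw [div_le_iff₀ hh]
        rw [div_le_iff₀ hσ] at h1
        linarith

end W71
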