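import Pool.Agent.W_aaa0df_h71.Scales

/-!
# The form with the number of the split primes
-/

set_option autoImplicit false

open MPaaa0df BG

namespace W71

/-- The earlier form follows from clause (A) of `few_all`: at most `2k` exceptions with fewer than
`X^c` split primes `p < X^θ`. -/
theorem old_form (ρ : ℝ → ℝ) (hρ : IsDickman ρ) (k : ℕ) (hk : 1 ≤ k) (θ : ℝ)
    (hθ : 0 < θ) (h : 1 / (2 * (k : ℝ) + 2) < ρ (1 / (2 * θ))) :
    ∃ c X₀ : ℝ, 0 < c ∧ ∀ X : ℝ, X₀ ≤ X → ∀ F : Finset ℤ,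
      (∀ d ∈ F, Twist.Fund d ∧ |(d : ℝ)| ≤ X ∧ (splitCount d (X ^ θ) : ℝ) < X ^ c) →
      F.card ≤ 2 * k := by
  refine few_count k θ ?_
  obtain ⟨c, δ, η, C, X₀, hc, hδ, -, hm⟩ := few_all ρ hρ k hk θ hθ h
  exact ⟨c, δ, X₀, hc, hδ, fun X hX F hF => (hm X hX F).1 hF⟩

end W71
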