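import Pool.Agent.W_aaa0df_h71.Fin

/-!
# Few exceptions: the range `p < |d| ^ θ`
-/

set_option autoImplicit false

noncomputable section

open Finset MPaaa0df BG

namespace W71

theorem splitSum_mono₂ (d : ℤ) {x x' y y' : ℝ} (hx : x' ≤ x) (hy : y ≤ y') :
    splitSum d x y ≤ splitSum d x' y' := by
  classical
  unfold splitSum
  refine Finset.sum_le_sum_of_subset_of_nonneg ?_ fun p _ _ => by positivity
  intro p hp
  rw [mem_filter, mem_range, Nat.lt_ceil] at hp ⊢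
  exact ⟨hp.1.trans_le hy, hp.2.1, hx.trans hp.2.2.1, hp.2.2.2.1.trans_le hy, hp.2.2.2.2⟩

/-- The forms for a fixed scale and for the scales `X ≤ |d| ≤ X ^ (1 + η)`. -/
theorem few_range (ρ : ℝ → ℝ) (hρ : IsDickman ρ) (k : ℕ) (hk : 1 ≤ k) (θ : ℝ)
    (hθ : 0 < θ) (h : 1 / (2 * (k : ℝ) + 2) < ρ (1 / (2 * θ))) :
    ∃ c σ η X₀ : ℝ, 0 < c ∧ 0 < σ ∧ 0 < η ∧ 1 ≤ X₀ ∧ ∀ X : ℝ, X₀ ≤ X →
      (∀ F : Finset ℤ,
        (∀ d ∈ F, Twist.Fund d ∧ |(d : ℝ)| ≤ X ∧ splitSum d (X ^ c) (X ^ θ) < σ) →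
        F.card ≤ 2 * k) ∧
      ∀ F : Finset ℤ,
        (∀ d ∈ F, Twist.Fund d ∧ X ≤ |(d : ℝ)| ∧ |(d : ℝ)| ≤ X ^ (1 + η) ∧
          splitSum d (|(d : ℝ)| ^ c) (|(d : ℝ)| ^ θ) < σ) →
        F.card ≤ 2 * k := by
  obtain ⟨θ', hθ'1, hθ'2, hθ'3⟩ : ∃ θ' : ℝ, θ / 2 < θ' ∧ θ' < θ ∧
      1 / (2 * (k : ℝ) + 2) < ρ (1 / (2 * θ')) := by
    have hc : ContinuousAt (fun t : ℝ => ρ (1 / (2 * t))) θ := by
      refine ContinuousAt.comp (g := ρ) hρ.1.continuousAt ?_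
      refine ContinuousAt.div continuousAt_const (by fun_prop) ?_
      positivity
    have h1 : ∀ᶠ t in nhds θ, 1 / (2 * (k : ℝ) + 2) < ρ (1 / (2 * t)) :=
      hc.eventually (lt_mem_nhds h)
    have h2 : ∀ᶠ t in nhds θ, θ / 2 < t := lt_mem_nhds (by linarith)
    have h3 : ∀ᶠ t in nhdsWithin θ (Set.Iio θ), t < θ := self_mem_nhdsWithin
    obtain ⟨t, ⟨ht1, ht2⟩, ht3⟩ :=
      (((h1.and h2).filter_mono nhdsWithin_le_nhds).and h3).exists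
    exact ⟨t, ht2, ht3, ht1⟩
  have hθ'0 : 0 < θ' := by linarith
  obtain ⟨c, σ, X₀, hc, hσ, hm⟩ := few_dickman ρ hρ k hk θ' hθ'0 hθ'3
  have hη : 0 < θ / θ' - 1 := by
    rw [sub_pos, one_lt_div hθ'0]
    exact hθ'2
  refine ⟨c, σ, θ / θ' - 1, max X₀ 1, hc, hσ, hη, le_max_right _ _, fun X hX => ⟨?_, ?_⟩⟩
  · intro F hF
    have hX1 : 1 ≤ X := (le_max_right _ _).trans hX
    refine hm X ((le_max_left _ _).trans hX) F fun d hd => ?_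
    obtain ⟨a1, a2, a3⟩ := hF d hd
    exact ⟨a1, a2,
      (splitSum_mono₂ d le_rfl (Real.rpow_le_rpow_of_exponent_le hX1 hθ'2.le)).trans_lt a3⟩
  · intro F hF
    have hX1 : 1 ≤ X := (le_max_right _ _).trans hX
    have hX0 : 0 < X := by linarith
    have he : 1 + (θ / θ' - 1) = θ / θ' := by ring
    rw [he] at hF
    have h1 : X ≤ X ^ (θ / θ') := by
      have := Real.rpow_le_rpow_of_exponent_le hX1 (show (1 : ℝ) ≤ θ / θ' by linarith)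
      rwa [Real.rpow_one] at this
    have h2 : (X ^ (θ / θ')) ^ θ' = X ^ θ := by
      rw [← Real.rpow_mul hX0.le]
      congr 1
      field_simp
    refine hm (X ^ (θ / θ')) (((le_max_left _ _).trans hX).trans h1) F fun d hd => ?_
    obtain ⟨a1, a2, a3, a4⟩ := hF d hd
    refine ⟨a1, a3, (splitSum_mono₂ d ?_ ?_).trans_lt a4⟩
    · exact Real.rpow_le_rpow (abs_nonneg _) a3 hc.le
    · rw [h2]
      exact Real.rpow_le_rpow hX0.le a2 hθ.le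

theorem card_small (F : Finset ℤ) (Y : ℝ) (hY : 0 ≤ Y) (hF : ∀ d ∈ F, |(d : ℝ)| ≤ Y) :
    (F.card : ℝ) ≤ 2 * Y + 1 := by
  have h1 : F ⊆ Finset.Icc (-(⌊Y⌋)) ⌊Y⌋ := by
    intro d hd
    have h2 := abs_le.1 (hF d hd)
    rw [Finset.mem_Icc]
    have h3 : d ≤ ⌊Y⌋ := Int.le_floor.2 h2.2
    have h4 : -d ≤ ⌊Y⌋ := Int.le_floor.2 (by push_cast; linarith [h2.1])
    exact ⟨by linarith, h3⟩
  have h2 := Finset.card_le_card h1
  rw [Int.card_Icc] at h2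
  have h0 : 0 ≤ ⌊Y⌋ := Int.floor_nonneg.2 hY
  have h3 : (F.card : ℤ) ≤ ⌊Y⌋ + 1 - -⌊Y⌋ := by
    have h5 : (((⌊Y⌋ + 1 - -⌊Y⌋).toNat : ℕ) : ℤ) = ⌊Y⌋ + 1 - -⌊Y⌋ :=
      Int.toNat_of_nonneg (by linarith)
    rw [← h5]
    exact_mod_cast h2
  have h4 : (F.card : ℝ) ≤ (⌊Y⌋ : ℝ) + 1 - -(⌊Y⌋ : ℝ) := by exact_mod_cast h3
  have h5 := Int.floor_le Y
  linarith

/-- The scales `Y ^ ((1 + η) ^ j)`. -/
theorem scales {P : ℤ → Prop} {k : ℕ} {η Y : ℝ} (hη : 0 < η) (hY : 1 ≤ Y)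
    (h : ∀ X : ℝ, Y ≤ X → ∀ F : Finset ℤ,
      (∀ d ∈ F, P d ∧ X ≤ |(d : ℝ)| ∧ |(d : ℝ)| ≤ X ^ (1 + η)) → F.card ≤ 2 * k) (j : ℕ) :
    ∀ F : Finset ℤ, (∀ d ∈ F, P d ∧ |(d : ℝ)| ≤ Y ^ ((1 + η) ^ j)) →
      (F.card : ℝ) ≤ 2 * Y + 1 + 2 * k * j := by
  classical
  induction j with
  | zero =>
    intro F hF
    have h1 := card_small F Y (by linarith) fun d hd => by
      have := (hF d hd).2
      rwa [pow_zero, Real.rpow_one] at this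
    push_cast
    linarith
  | succ j ih =>
    intro F hF
    have hY0 : 0 < Y := by linarith
    have h1 := ih (F.filter fun d : ℤ => |(d : ℝ)| ≤ Y ^ ((1 + η) ^ j)) fun d hd => by
      rw [mem_filter] at hd
      exact ⟨(hF d hd.1).1, hd.2⟩
    have hYj : Y ≤ Y ^ ((1 + η) ^ j) := by
      have := Real.rpow_le_rpow_of_exponent_le hY (one_le_pow₀ (show (1 : ℝ) ≤ 1 + η by linarith)
        (n := j))
      rwa [Real.rpow_one] at this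
    have h2 := h (Y ^ ((1 + η) ^ j)) hYj (F.filter fun d : ℤ => ¬ |(d : ℝ)| ≤ Y ^ ((1 + η) ^ j))
      fun d hd => by
        rw [mem_filter] at hd
        obtain ⟨a1, a2⟩ := hF d hd.1
        refine ⟨a1, (not_le.1 hd.2).le, a2.trans (le_of_eq ?_)⟩
        rw [← Real.rpow_mul hY0.le, pow_succ]
    have h3 := Finset.card_filter_add_card_filter_not (s := F)
      (fun d : ℤ => |(d : ℝ)| ≤ Y ^ ((1 + η) ^ j))
    have h4 : (F.card : ℝ) = ((F.filter fun d : ℤ => |(d : ℝ)| ≤ Y ^ ((1 + η) ^ j)).card : ℝ) +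
        ((F.filter fun d : ℤ => ¬ |(d : ℝ)| ≤ Y ^ ((1 + η) ^ j)).card : ℝ) := by
      exact_mod_cast h3.symm
    have h5 : ((F.filter fun d : ℤ => ¬ |(d : ℝ)| ≤ Y ^ ((1 + η) ^ j)).card : ℝ) ≤ 2 * (k : ℝ) := by
      exact_mod_cast h2
    push_cast
    linarith

/-- Few exceptions up to `X`, double logarithmically. -/
theorem loglog {P : ℤ → Prop} {k : ℕ} {η Y : ℝ} (hη : 0 < η)
    (h : ∀ X : ℝ, Y ≤ X → ∀ F : Finset ℤ,
      (∀ d ∈ F, P d ∧ X ≤ |(d : ℝ)| ∧ |(d : ℝ)| ≤ X ^ (1 + η)) → F.card ≤ 2 * k) :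
    ∃ C X₁ : ℝ, ∀ X : ℝ, X₁ ≤ X → ∀ F : Finset ℤ, (∀ d ∈ F, P d ∧ |(d : ℝ)| ≤ X) →
      (F.card : ℝ) ≤ C * Real.log (Real.log X) := by
  obtain ⟨Z, hZ⟩ : ∃ Z : ℝ, Z = max Y (Real.exp 1) := ⟨_, rfl⟩
  have hZe : Real.exp 1 ≤ Z := by rw [hZ]; exact le_max_right _ _
  have hZY : Y ≤ Z := by rw [hZ]; exact le_max_left _ _
  have he1 : (1 : ℝ) ≤ Real.exp 1 := Real.one_le_exp (by norm_num)
  have hZ1 : 1 ≤ Z := he1.trans hZe
  have hZ0 : 0 < Z := by linarith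
  have hs := scales (P := P) (k := k) hη hZ1 fun X hX => h X (hZY.trans hX)
  have hlη : 0 < Real.log (1 + η) := Real.log_pos (by linarith)
  have hlZ : 1 ≤ Real.log Z := by
    rw [Real.le_log_iff_exp_le hZ0]; exact hZe
  refine ⟨2 * Z + 1 + 2 * k + 2 * k / Real.log (1 + η), Real.exp (Real.exp 1),
    fun X hX F hF => ?_⟩
  have hX0 : 0 < X := (Real.exp_pos _).trans_le hX
  have hlX : Real.exp 1 ≤ Real.log X := by
    rw [Real.le_log_iff_exp_le hX0]; exact hX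
  have hlX0 : 0 < Real.log X := (Real.exp_pos _).trans_le hlX
  have hL1 : 1 ≤ Real.log (Real.log X) := by
    rw [Real.le_log_iff_exp_le hlX0]; exact hlX
  obtain ⟨j, hj⟩ : ∃ j : ℕ, j = ⌈Real.log (Real.log X) / Real.log (1 + η)⌉₊ := ⟨_, rfl⟩
  have hj1 : Real.log (Real.log X) / Real.log (1 + η) ≤ j := by rw [hj]; exact Nat.le_ceil _
  have hj2 : (j : ℝ) ≤ Real.log (Real.log X) / Real.log (1 + η) + 1 := by
    rw [hj]
    exact (Nat.ceil_lt_add_one (by positivity)).le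
  have h1 : Real.log X ≤ (1 + η) ^ j := by
    rw [div_le_iff₀ hlη] at hj1
    have h2 : Real.log (Real.log X) ≤ Real.log ((1 + η) ^ j) := by
      rw [Real.log_pow]; exact hj1
    exact (Real.log_le_log_iff hlX0 (by positivity)).1 h2
  have h2 : X ≤ Z ^ ((1 + η) ^ j) := by
    rw [← Real.log_le_log_iff hX0 (by positivity), Real.log_rpow hZ0]
    have h3 := mul_le_mul_of_nonneg_left hlZ (show 0 ≤ (1 + η) ^ j by positivity)
    linarith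
  have h3 := hs j F fun d hd => ⟨(hF d hd).1, (hF d hd).2.trans h2⟩
  have hk0 : (0 : ℝ) ≤ 2 * k := by positivity
  have h4 := mul_le_mul_of_nonneg_left hj2 hk0
  have h5 : (2 * Z + 1 + 2 * k) * 1 ≤ (2 * Z + 1 + 2 * (k : ℝ)) * Real.log (Real.log X) :=
    mul_le_mul_of_nonneg_left hL1 (by positivity)
  have h6 : 2 * (k : ℝ) * (Real.log (Real.log X) / Real.log (1 + η) + 1) =
      2 * k / Real.log (1 + η) * Real.log (Real.log X) + 2 * k := by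
    field_simp
  have h7 : (2 * Z + 1 + 2 * k + 2 * k / Real.log (1 + η)) * Real.log (Real.log X) =
      (2 * Z + 1 + 2 * (k : ℝ)) * Real.log (Real.log X) +
        2 * k / Real.log (1 + η) * Real.log (Real.log X) := by ring
  rw [h7]
  linarith

/-- All forms together. -/
theorem few_all (ρ : ℝ → ℝ) (hρ : IsDickman ρ) (k : ℕ) (hk : 1 ≤ k) (θ : ℝ)
    (hθ : 0 < θ) (h : 1 / (2 * (k : ℝ) + 2) < ρ (1 / (2 * θ))) :
    ∃ c σ η C X₀ : ℝ, 0 < c ∧ 0 < σ ∧ 0 < η ∧ ∀ X : ℝ, X₀ ≤ X → ∀ F : Finset ℤ,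
      ((∀ d ∈ F, Twist.Fund d ∧ |(d : ℝ)| ≤ X ∧ splitSum d (X ^ c) (X ^ θ) < σ) →
        F.card ≤ 2 * k) ∧
      ((∀ d ∈ F, Twist.Fund d ∧ X ≤ |(d : ℝ)| ∧ |(d : ℝ)| ≤ X ^ (1 + η) ∧
          splitSum d (|(d : ℝ)| ^ c) (|(d : ℝ)| ^ θ) < σ) →
        F.card ≤ 2 * k) ∧
      ((∀ d ∈ F, Twist.Fund d ∧ |(d : ℝ)| ≤ X ∧
          splitSum d (|(d : ℝ)| ^ c) (|(d : ℝ)| ^ θ) < σ) →
        (F.card : ℝ) ≤ C * Real.log (Real.log X)) := by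
  obtain ⟨c, σ, η, X₀, hc, hσ, hη, hX₀, hm⟩ := few_range ρ hρ k hk θ hθ h
  obtain ⟨C, X₁, hC⟩ := loglog (k := k) (η := η) (Y := X₀)
    (P := fun d => Twist.Fund d ∧ splitSum d (|(d : ℝ)| ^ c) (|(d : ℝ)| ^ θ) < σ) hη
    fun X hX F hF => (hm X hX).2 F fun d hd =>
      ⟨(hF d hd).1.1, (hF d hd).2.1, (hF d hd).2.2, (hF d hd).1.2⟩
  refine ⟨c, σ, η, C, max X₀ X₁, hc, hσ, hη, fun X hX F => ⟨?_, ?_, ?_⟩⟩
  · exact (hm X ((le_max_left _ _).trans hX)).1 F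
  · exact (hm X ((le_max_left _ _).trans hX)).2 F
  · intro hF
    exact hC X ((le_max_right _ _).trans hX) F fun d hd =>
      ⟨⟨(hF d hd).1, (hF d hd).2.2⟩, (hF d hd).2.1⟩

end W71
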