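import Pool.Agent.W_aaa0df_v.DE
import Pool.Agent.W_aaa0df_h71.Defs

/-!
# Few exceptions, with the sum of `1 / p` over the split primes
-/

set_option autoImplicit false

noncomputable section

open Finset MPaaa0df Pool.Agent.Wb58c63 BG

namespace W71

theorem mult_card (z y : ℝ) (N p : ℕ) (hp : p.Prime) :
    (((SR z y N).filter (fun n => p ∣ n)).card : ℝ) ≤
      ∑ m ∈ Icc 1 (N / p), Pool.Agent.M58.rh z m := by
  classical
  have hp0 : 0 < p := hp.pos
  have h1 : ((SR z y N).filter (fun n => p ∣ n)).card ≤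
      ((Icc 1 (N / p)).filter (fun m => Pool.Agent.M58.rh z m = 1)).card := by
    refine Finset.card_le_card_of_injOn (fun n => n / p) ?_ ?_
    · intro n hn
      rw [Finset.mem_coe, mem_filter] at hn
      obtain ⟨hn, m, rfl⟩ := hn
      unfold SR at hn
      rw [mem_filter, mem_Icc] at hn
      obtain ⟨⟨h2, h3⟩, h4⟩ := hn
      have hm0 : m ≠ 0 := by
        rintro rfl
        simp at h2
      rw [Finset.mem_coe, mem_filter, mem_Icc]
      show (1 ≤ p * m / p ∧ p * m / p ≤ N / p) ∧ Pool.Agent.M58.rh z (p * m / p) = 1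
      rw [Nat.mul_div_cancel_left m hp0]
      refine ⟨⟨Nat.one_le_iff_ne_zero.2 hm0, (Nat.le_div_iff_mul_le hp0).2 ?_⟩, ?_⟩
      · rw [mul_comm]; exact h3
      · exact Pool.Agent.M58.VC_rh_eq_one hm0 fun q hq =>
          (h4 q (Nat.prime_of_mem_primeFactors hq)
            ((Nat.dvd_of_mem_primeFactors hq).mul_left p)).1
    · intro a ha a' ha' haa
      rw [Finset.mem_coe, mem_filter] at ha ha'
      obtain ⟨m, rfl⟩ := ha.2
      obtain ⟨m', rfl⟩ := ha'.2
      have h2 : p * m / p = p * m' / p := haa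
      rw [Nat.mul_div_cancel_left m hp0, Nat.mul_div_cancel_left m' hp0] at h2
      rw [h2]
  have h2 : (((Icc 1 (N / p)).filter (fun m => Pool.Agent.M58.rh z m = 1)).card : ℝ) ≤
      ∑ m ∈ Icc 1 (N / p), Pool.Agent.M58.rh z m := by
    have h3 : (((Icc 1 (N / p)).filter (fun m => Pool.Agent.M58.rh z m = 1)).card : ℝ) =
        ∑ m ∈ (Icc 1 (N / p)).filter (fun m => Pool.Agent.M58.rh z m = 1),
          Pool.Agent.M58.rh z m := by
      rw [Finset.sum_congr rfl (fun m hm => (mem_filter.1 hm).2), sum_const, nsmul_eq_mul,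
        mul_one]
    rw [h3]
    refine Finset.sum_le_sum_of_subset_of_nonneg (filter_subset _ _) fun m _ _ => ?_
    unfold Pool.Agent.M58.rh
    split_ifs
    · exact zero_le_one
    · exact le_rfl
  have h3 : (((SR z y N).filter (fun n => p ∣ n)).card : ℝ) ≤
      (((Icc 1 (N / p)).filter (fun m => Pool.Agent.M58.rh z m = 1)).card : ℝ) := by
    exact_mod_cast h1
  exact h3.trans h2

theorem DG_Gd (F : Finset ℤ) (z y : ℝ) (N : ℕ) :
    ((SR z y N).card : ℝ) - ∑ p ∈ Exc F z y, ∑ m ∈ Icc 1 (N / p), Pool.Agent.M58.rh z m ≤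
      ((Gd F z y N).card : ℝ) := by
  classical
  have h1 : SR z y N ⊆ Gd F z y N ∪
      (Exc F z y).biUnion (fun p => (SR z y N).filter (fun n => p ∣ n)) := by
    intro n hn
    rw [mem_union]
    by_cases h : ∃ p ∈ Exc F z y, p ∣ n
    · right
      obtain ⟨p, hp, hpn⟩ := h
      rw [mem_biUnion]
      exact ⟨p, hp, mem_filter.2 ⟨hn, hpn⟩⟩
    · left
      push Not at h
      unfold SR at hn
      rw [mem_filter] at hn
      unfold Gd
      rw [mem_filter]
      exact ⟨hn.1, fun p hp hpn =>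
        ⟨(hn.2 p hp hpn).1, (hn.2 p hp hpn).2, fun hE => h p hE hpn⟩⟩
  have h2 := (Finset.card_le_card h1).trans
    ((Finset.card_union_le _ _).trans (Nat.add_le_add_left Finset.card_biUnion_le _))
  have h3 : ((SR z y N).card : ℝ) ≤ ((Gd F z y N).card : ℝ) +
      ∑ p ∈ Exc F z y, (((SR z y N).filter (fun n => p ∣ n)).card : ℝ) := by
    exact_mod_cast h2
  have h4 : ∑ p ∈ Exc F z y, (((SR z y N).filter (fun n => p ∣ n)).card : ℝ) ≤
      ∑ p ∈ Exc F z y, ∑ m ∈ Icc 1 (N / p), Pool.Agent.M58.rh z m :=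
    sum_le_sum fun p hp => mult_card z y N p (VG_Exmem p hp).1
  linarith

theorem sum_union_le' (s t : Finset ℕ) (f : ℕ → ℝ) (hf : ∀ p, 0 ≤ f p) :
    ∑ p ∈ s ∪ t, f p ≤ ∑ p ∈ s, f p + ∑ p ∈ t, f p := by
  rw [← sum_union_inter]
  have : 0 ≤ ∑ p ∈ s ∩ t, f p := sum_nonneg fun p _ => hf p
  linarith

theorem sum_biUnion_le' (s : Finset ℤ) (t : ℤ → Finset ℕ) (f : ℕ → ℝ) (hf : ∀ p, 0 ≤ f p) :
    ∑ p ∈ s.biUnion t, f p ≤ ∑ i ∈ s, ∑ p ∈ t i, f p := by
  classical
  induction s using Finset.induction_on with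
  | empty => simp
  | insert a s ha ih =>
    rw [biUnion_insert, sum_insert ha]
    exact (sum_union_le' _ _ f hf).trans (add_le_add_right ih _)

/-- The sum of `1 / p` over the exceptional primes. -/
theorem sum_Exc (F : Finset ℤ) (X z y σ : ℝ) (hz : 0 < z)
    (hF : ∀ d ∈ F, Twist.Fund d ∧ |(d : ℝ)| ≤ X ∧ splitSum d z y ≤ σ) :
    ∑ p ∈ Exc F z y, 1 / (p : ℝ) ≤ F.card * (σ + 2 * Real.log X / z) := by
  classical
  have h1 : Exc F z y ⊆ F.biUnion (fun d =>
      (range ⌈y⌉₊).filter (fun p : ℕ => p.Prime ∧ z ≤ (p : ℝ) ∧ (p : ℝ) < y ∧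
        ¬ ((p : ℤ) ∣ d) ∧ ∃ t : ℤ, (4 * (p : ℤ)) ∣ t ^ 2 - d) ∪
      d.natAbs.primeFactors.filter (fun p : ℕ => z ≤ (p : ℝ))) := by
    intro p hp
    unfold Exc at hp
    rw [mem_filter] at hp
    obtain ⟨hr, hp1, hp3, hp2, d, hdF, hd⟩ := hp
    obtain ⟨hd0, hd4⟩ := fund_mod d (hF d hdF).1
    rw [mem_biUnion]
    refine ⟨d, hdF, ?_⟩
    rw [mem_union, mem_filter, mem_filter]
    rcases chi_values d p with h | h | h
    · right
      rw [Nat.mem_primeFactors]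
      exact ⟨⟨hp1, Int.natCast_dvd.1 (chi_zero d hd4 p hp1 h), Int.natAbs_ne_zero.2 hd0⟩, hp3⟩
    · left
      have h6 := (chi_split d hd4 p hp1).2 h
      exact ⟨hr, hp1, hp3, hp2, h6.1, h6.2⟩
    · exact absurd h hd
  have hnn : ∀ p : ℕ, (0 : ℝ) ≤ 1 / (p : ℝ) := fun p => by positivity
  have h2 : ∑ p ∈ Exc F z y, 1 / (p : ℝ) ≤ ∑ d ∈ F, (σ + 2 * Real.log X / z) := by
    refine (Finset.sum_le_sum_of_subset_of_nonneg h1 fun p _ _ => hnn p).trans ?_
    refine (sum_biUnion_le' _ _ _ hnn).trans (sum_le_sum fun d hd => ?_)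
    refine (sum_union_le' _ _ _ hnn).trans (add_le_add ?_ ?_)
    · have h3 := (hF d hd).2.2
      unfold splitSum at h3
      convert h3
    · obtain ⟨hd0, -⟩ := fund_mod d (hF d hd).1
      refine (Finset.sum_le_sum (g := fun _ => 1 / z) fun p hp => ?_).trans ?_
      · exact one_div_le_one_div_of_le hz (mem_filter.1 hp).2
      · rw [sum_const, nsmul_eq_mul]
        have h4 : (((d.natAbs.primeFactors.filter (fun p : ℕ => z ≤ (p : ℝ))).card : ℕ) : ℝ) ≤
            2 * Real.log X :=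
          (Nat.cast_le.2 (Finset.card_le_card (filter_subset _ _))).trans
            (VD_primeFactors d hd0 X (hF d hd).2.1)
        have h5 := mul_le_mul_of_nonneg_right h4 (show (0 : ℝ) ≤ 1 / z by positivity)
        refine h5.trans (le_of_eq ?_)
        ring
  refine h2.trans ?_
  rw [sum_const, nsmul_eq_mul]

theorem card_Exc_le (F : Finset ℤ) (z y : ℝ) (hy : 0 ≤ y) :
    ((Exc F z y).card : ℝ) ≤ y + 1 := by
  have h1 : (Exc F z y).card ≤ ⌈y⌉₊ := by
    unfold Exc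
    exact (Finset.card_filter_le _ _).trans (by rw [card_range])
  have h2 : (⌈y⌉₊ : ℝ) < y + 1 := Nat.ceil_lt_add_one hy
  have h3 : ((Exc F z y).card : ℝ) ≤ (⌈y⌉₊ : ℝ) := by exact_mod_cast h1
  linarith

/-- The rough numbers with an exceptional prime factor. -/
theorem Ex_bound {F : Finset ℤ} {X z y σ C₁ κ W V M t : ℝ} {b N : ℕ} (hX : 1 ≤ X) (hb1 : 1 ≤ b)
    (hz : 2 ≤ z) (hy : 1 ≤ y) (hC₁ : 1 ≤ C₁) (hV : 0 ≤ V) (hW : W = N * V) (hM : 0 ≤ M)
    (hcard : (F.card : ℝ) = M)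
    (hup : ∀ N : ℕ, ∑ n ∈ Icc 1 N, Pool.Agent.M58.rh z n ≤
        N * (V * (1 + C₁ * Real.exp (-b))) + z ^ (4 * b + 5))
    (hF : ∀ d ∈ F, Twist.Fund d ∧ |(d : ℝ)| ≤ X ∧ splitSum d z y ≤ σ)
    (h1 : (1 + C₁) * (M * σ) ≤ κ / 32) (h2 : (1 + C₁) * (M * (2 * Real.log X / z)) ≤ κ / 32)
    (h3 : 2 * y * z ^ (4 * b + 5) ≤ κ / 16 * W) :
    ∑ p ∈ Exc F z y, ∑ m ∈ Icc 1 (N / p), Pool.Agent.M58.rh z m ≤ κ / 8 * W := by
  have hz0 : 0 < z := by linarith
  have hZ : 0 ≤ z ^ (4 * b + 5) := by positivity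
  have hW0 : 0 ≤ W := by rw [hW]; positivity
  have hs := sum_Exc F X z y σ hz0 hF
  rw [hcard] at hs
  have he : Real.exp (-(b : ℝ)) ≤ 1 := by
    rw [Real.exp_le_one_iff]
    have : (0 : ℝ) ≤ b := Nat.cast_nonneg b
    linarith
  have hterm : ∀ p ∈ Exc F z y, ∑ m ∈ Icc 1 (N / p), Pool.Agent.M58.rh z m ≤
      W * (1 + C₁) * (1 / (p : ℝ)) + z ^ (4 * b + 5) := by
    intro p hp
    refine (hup (N / p)).trans ?_
    have h4 : ((N / p : ℕ) : ℝ) ≤ (N : ℝ) / p := Nat.cast_div_le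
    have h5 : V * (1 + C₁ * Real.exp (-b)) ≤ V * (1 + C₁) := by
      apply mul_le_mul_of_nonneg_left _ hV
      have := mul_le_mul_of_nonneg_left he (show 0 ≤ C₁ by linarith)
      linarith
    have h6 : ((N / p : ℕ) : ℝ) * (V * (1 + C₁ * Real.exp (-b))) ≤
        (N : ℝ) / p * (V * (1 + C₁)) := by
      apply mul_le_mul h4 h5 _ (by positivity)
      have := Real.exp_pos (-(b : ℝ))
      have hC0 : 0 ≤ C₁ := by linarith
      positivity
    have h7 : (N : ℝ) / p * (V * (1 + C₁)) = W * (1 + C₁) * (1 / (p : ℝ)) := by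
      rw [hW]; ring
    linarith
  refine (sum_le_sum hterm).trans ?_
  rw [sum_add_distrib, ← mul_sum, sum_const, nsmul_eq_mul]
  have h8 : W * (1 + C₁) * ∑ p ∈ Exc F z y, 1 / (p : ℝ) ≤ κ / 16 * W := by
    have h9 := mul_le_mul_of_nonneg_left hs (show 0 ≤ W * (1 + C₁) by
      have hC0 : 0 ≤ C₁ := by linarith
      positivity)
    refine h9.trans ?_
    have h10 : W * (1 + C₁) * (M * (σ + 2 * Real.log X / z)) =
        W * ((1 + C₁) * (M * σ) + (1 + C₁) * (M * (2 * Real.log X / z))) := by ring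
    rw [h10]
    have h11 := mul_le_mul_of_nonneg_left (add_le_add h1 h2) hW0
    refine h11.trans (le_of_eq ?_)
    ring
  have h12 : ((Exc F z y).card : ℝ) * z ^ (4 * b + 5) ≤ κ / 16 * W := by
    refine le_trans ?_ h3
    apply mul_le_mul_of_nonneg_right _ hZ
    have := card_Exc_le F z y (by linarith)
    linarith
  have h13 : κ / 8 * W = κ / 16 * W + κ / 16 * W := by ring
  rw [h13]
  exact add_le_add h8 h12

end W71
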